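import Pool.Agent.W477.ER.Stm

/-!
# Project ER: lemmas C1 and Q3
-/

set_option autoImplicit false

open Finset
open Pool.Agent.W477.ER

namespace Pool.Agent.W932.ER

theorem c1_of : LAY → AlBasic → PpBasic → BeBlock → BePP → BeShift → C1 := by
  intro hlay halb hpp hblock hbpp hshift q d l v r N w n hpar hrows hn
  obtain ⟨hq, hdq, hv1, hvd, hr1, hr, hN⟩ := hpar
  obtain ⟨hanti, hw, hsum⟩ := hrows
  obtain ⟨-, -, hppS, -, -, -⟩ := hpp
  obtain ⟨hal1, -, hal3, hal4, -, -, -⟩ := halb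
  set y := n 0 - pp q (l + 2) with hy
  have hn0 : n 0 = pp q (l + 2) + y := by omega
  have hyn : n 1 ≤ y := by omega
  set X := (v - 1) * q ^ (l + 1) + r with hX
  obtain ⟨v', rfl⟩ : ∃ v', v = v' + 1 := ⟨v - 1, by omega⟩
  simp only [Nat.add_sub_cancel] at hX
  have hNX : N = pp q (l + 2) + X := by
    rw [hN, hX, hppS q (l + 1)]; ring
  have hXle : X ≤ q ^ (l + 2) := by
    have h1 : r ≤ q ^ (l + 1) := by
      have h2 : (d - (v' + 1)) * q ^ l + q ^ l ≤ q ^ (l + 1) := by
        calc (d - (v' + 1)) * q ^ l + q ^ l = (d - (v' + 1) + 1) * q ^ l := by ring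
          _ ≤ q * q ^ l := Nat.mul_le_mul_right _ (by omega)
          _ = q ^ (l + 1) := by ring
      have h3 : 1 ≤ q ^ l := Nat.one_le_pow _ _ (by omega)
      omega
    calc X = v' * q ^ (l + 1) + r := hX
      _ ≤ v' * q ^ (l + 1) + q ^ (l + 1) := by omega
      _ = (v' + 1) * q ^ (l + 1) := by ring
      _ ≤ q * q ^ (l + 1) := Nat.mul_le_mul_right _ (by omega)
      _ = q ^ (l + 2) := by ring
  let x : ℕ → ℕ := fun i => if i = 0 then y else n i
  have hxanti : Antitone x := by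
    intro i j hij
    simp only [x]
    rcases Nat.eq_zero_or_pos j with hj | hj
    · subst hj
      have : i = 0 := by omega
      simp [this]
    · rw [if_neg (by omega : ¬ j = 0)]
      by_cases hi : i = 0
      · rw [if_pos hi]
        exact (hanti (by omega : 1 ≤ j)).trans hyn
      · rw [if_neg hi]; exact hanti hij
  obtain ⟨q', rfl⟩ : ∃ q', q = q' + 1 := ⟨q - 1, by omega⟩
  have hsumx : ∑ i ∈ range (q' + 1), x i + w = X := by
    rw [sum_range_succ'] at hsum ⊢
    have e1 : ∀ i ∈ range q', x (i + 1) = n (i + 1) := fun i _ => by simp [x]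
    rw [sum_congr rfl e1]
    have e2 : x 0 = y := by simp [x]
    rw [e2]
    omega
  have hbe0 : be (q' + 1) 0 d (n 0) = al (q' + 1) 0 d ((q' + 1) ^ (l + 1)) + al (q' + 1) 1 d y := by
    rw [hn0, hblock (q' + 1) 0 d (l + 1) y hq (by
      have : y ≤ X := by
        have := single_le_sum (f := x) (s := range (q' + 1)) (fun i _ => Nat.zero_le _)
          (mem_range.mpr (by omega : 0 < q' + 1))
        have e2 : x 0 = y := by simp [x]
        rw [e2] at this
        omega
      exact this.trans hXle), hbpp (q' + 1) 0 d (l + 1) hq (by omega)]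
  have hbeN : be (q' + 1) 0 d N = al (q' + 1) 0 d ((q' + 1) ^ (l + 1)) + al (q' + 1) 1 d X := by
    rw [hNX, hblock (q' + 1) 0 d (l + 1) X hq hXle, hbpp (q' + 1) 0 d (l + 1) hq (by omega)]
  have hL := hlay (q' + 1) (q' + 1) 1 d x hq le_rfl hxanti
  have hw' : w = 0 ∨ w = 1 := by omega
  rcases hw' with rfl | rfl
  · rw [hbeN]
    unfold tot
    rw [if_pos rfl, sum_range_succ', hbe0]
    rw [add_zero] at hsumx
    rw [hsumx, sum_range_succ'] at hL
    have e1 : ∀ i ∈ range q', al (q' + 1) (1 + (i + 1)) d (x (i + 1)) ≤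
        be (q' + 1) (i + 1) d (n (i + 1)) := by
      intro i _
      have e2 : x (i + 1) = n (i + 1) := by simp [x]
      rw [e2, add_comm 1 (i + 1)]
      exact hshift (q' + 1) (i + 1) d (n (i + 1)) hq (by omega)
    have e3 := sum_le_sum e1
    have e4 : x 0 = y := by simp [x]
    rw [e4] at hL
    simp only [Nat.add_zero] at hL
    omega
  · rw [hbeN]
    unfold tot
    rw [if_neg one_ne_zero]
    obtain ⟨d', rfl⟩ : ∃ d', d = d' + 1 := ⟨d - 1, by omega⟩
    have hcut : ∑ i ∈ range (q' + 1), al (q' + 1) (1 + i) (d' + 1) (x i) =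
        ∑ i ∈ range (d' + 1), al (q' + 1) (1 + i) (d' + 1) (x i) := by
      symm
      refine sum_subset (fun i hi => ?_) fun i _ hi => ?_
      · rw [mem_range] at *; omega
      · rw [mem_range] at hi
        exact hal4 _ _ _ _ (by omega)
    have hsumx' : ∑ i ∈ range (q' + 1), x i = X - 1 := by omega
    rw [hcut, hsumx', sum_range_succ'] at hL
    rw [sum_range_succ', hbe0]
    have e1 : ∀ i ∈ range d', al (q' + 1) (1 + (i + 1)) (d' + 1) (x (i + 1)) ≤
        be (q' + 1) (i + 1) (d' + 1) (n (i + 1)) := by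
      intro i _
      have e2 : x (i + 1) = n (i + 1) := by simp [x]
      rw [e2, add_comm 1 (i + 1)]
      exact hshift (q' + 1) (i + 1) (d' + 1) (n (i + 1)) hq (by omega)
    have e3 := sum_le_sum e1
    have e4 : x 0 = y := by simp [x]
    rw [e4] at hL
    have e5 := hal3 (q' + 1) 1 (d' + 1) (X - 1)
    have e6 : X - 1 + 1 = X := by omega
    rw [e6] at e5
    simp only [Nat.add_zero] at hL
    omega

theorem al_pow3 (halb : AlBasic) (hpow : AlPow) (n : ℕ) : al 3 1 2 (3 ^ n) = n + 1 := by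
  obtain ⟨-, -, hal3, -, -, hal6, hal7⟩ := halb
  induction n with
  | zero =>
    have h1 := hal6 3 1 2 1 (by norm_num) le_rfl
    have h2 := hal3 3 1 2 0
    have h3 : al 3 1 2 0 = 0 := by simp [al]
    rw [h3, zero_add] at h2
    simp only [pow_zero]
    omega
  | succ n ih =>
    rw [hpow 3 1 2 n (by norm_num) (by norm_num), ih]
    have h4 : al 3 (1 + 1) 2 (3 ^ (n + 1)) = 1 :=
      hal7 3 2 (3 ^ (n + 1)) (by norm_num) (Nat.one_le_pow _ _ (by norm_num))
    rw [h4]

theorem q3_of : AlBasic → AlPow → PpBasic → BeBasic → BeBlock → BePP → BeSat → BeCan → SatD →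
    C1 → Q3 := by
  intro halb hpow hpp hbe hblock hbpp hsat hcan hsatd hc1 l N n hN hrows
  have hpar : Par 3 2 l 2 1 N := ⟨by norm_num, by norm_num, by norm_num, le_rfl, le_rfl,
    by simp, hN⟩
  by_cases h1 : n 0 ≤ pp 3 (l + 2)
  · exact hsatd 3 2 l 1 N n hpar hrows h1
  by_cases h2 : pp 3 (l + 2) + n 1 ≤ n 0
  · exact hc1 3 2 l 2 1 N 1 n hpar hrows h2
  obtain ⟨hanti, -, hsum⟩ := hrows
  set y := n 0 - pp 3 (l + 2) with hy
  have hn0 : n 0 = pp 3 (l + 2) + y := by omega
  have hp := hpp.2.2.1 3 (l + 1)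
  simp only [sum_range_succ, range_zero, sum_empty, zero_add] at hsum
  have hn21 : n 2 ≤ n 1 := hanti (by norm_num)
  have h3 : y + n 1 + n 2 = 3 ^ (l + 1) := by
    have : pp 3 (l + 2) = pp 3 (l + 1) + 3 ^ (l + 1) := hp
    omega
  have h4 : 3 ^ l + 1 ≤ n 1 := by
    have : 3 ^ (l + 1) = 3 * 3 ^ l := by ring
    omega
  have hbe0 : be 3 0 2 (n 0) = al 3 0 2 (3 ^ (l + 1)) + al 3 1 2 y := by
    rw [hn0, hblock 3 0 2 (l + 1) y (by norm_num) (by
      have : 3 ^ (l + 1 + 1) = 3 * 3 ^ (l + 1) := by ring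
      omega), hbpp 3 0 2 (l + 1) (by norm_num) (by norm_num)]
  have hy1 : 1 ≤ al 3 1 2 y := halb.2.2.2.2.2.1 3 1 2 y (by norm_num) (by omega)
  have hbeN := (hcan 3 2 l 2 1 (by norm_num) (by norm_num) (by norm_num) le_rfl (by simp)).2
  rw [← hN] at hbeN
  simp only [sum_range_succ, range_zero, sum_empty, zero_add] at hbeN
  rw [al_pow3 halb hpow (l + 1), halb.2.2.2.2.2.2 3 2 1 (by norm_num) le_rfl] at hbeN
  have hbe1 : l + 1 ≤ be 3 1 2 (n 1) := by
    rcases Nat.eq_zero_or_pos l with rfl | hl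
    · exact hbe.2.2.2.2.2.1 3 1 2 (n 1) (by norm_num) (by omega)
    · obtain ⟨l', rfl⟩ : ∃ l', l = l' + 1 := ⟨l - 1, by omega⟩
      have e1 := hsat 3 1 2 l' (n 1) (by norm_num) (by norm_num) (by norm_num) (by
        have e2 := hpp.2.2.2.2.1 3 l' (by norm_num)
        have e3 : 3 ^ (l' + 1) = 3 * 3 ^ l' := by ring
        simp only [Nat.reduceSub] at e2 ⊢
        omega)
      rw [al_pow3 halb hpow (l' + 1)] at e1
      exact e1
  unfold tot
  rw [if_neg one_ne_zero]
  simp only [sum_range_succ, range_zero, sum_empty, zero_add]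
  omega

end Pool.Agent.W932.ER
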